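import Pool.Agent.Q54.EM.StmD

/-!
# Project EM (helper54), job HL: `0 < hh ≤ l`, `hh ≤ k`, `0 ≤ VV`, `0 < et`
-/

set_option autoImplicit false

namespace Pool.Agent.Q241.EM

open Finset Pool.Agent.Q54.EM

theorem hl : S_COV → S_IDT → S_LH → S_LMB → S_POS → S_EEL → S_HL := by
  intro hcov hidt hlh hlmb hpos heel ι _ p x k l hk hp hm0 hm1 hkk
  have hl0 : 0 < l := hkk.1
  have hk0 : (0 : ℝ) < k := by exact_mod_cast hk
  have hW : 0 < PR p x k k := (hpos ι p x hp).1 k k le_rfl hk hm1
  have hw1 : 0 < PR p x (k - 1) k := (hpos ι p x hp).1 (k - 1) k (Nat.sub_le _ _) hk hm1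
  have hlam : 0 < lam k p x := div_pos hW hw1
  have hLH := hlh ι p x k hk hp hm1
  have hkm : 0 < (k : ℝ) * (1 - mu p x) := mul_pos hk0 (by linarith)
  have hh0 : 0 < hh k p x := by
    by_contra h
    push Not at h
    have := mul_nonpos_of_nonneg_of_nonpos hlam.le h
    linarith
  obtain ⟨hadd, hsub, hmul, hmono, -, -⟩ := heel ι p x k
  have hmono' := hmono (fun i => (hp.pos i).le) hp.nn
  have hGP : GP p x k k ≤ k * PR p x k k := by
    unfold GP PR
    rw [← hmul]
    refine hmono' _ _ fun s hs => ?_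
    by_cases h : s < k
    · simp only [if_pos h, mul_one]
      exact max_le (by linarith) hk0.le
    · simp only [if_neg h, mul_zero]
      exact max_le (by push Not at h; linarith) le_rfl
  have hhk : hh k p x ≤ k := by
    unfold hh
    rw [div_le_iff₀ hW]
    exact hGP
  have hVV : 0 ≤ VV k p x := by
    have e1 : EE p x k (fun s => ((max ((k : ℝ) - s) 0) ^ 2 - 2 * hh k p x * max ((k : ℝ) - s) 0) +
        hh k p x ^ 2 * (if s < k then 1 else 0)) =
        G2 p x k k - 2 * hh k p x * GP p x k k + hh k p x ^ 2 * PR p x k k := by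
      rw [hadd, hsub, hmul, hmul]
      rfl
    have e2 : EE p x k (fun _ => 0 * (0 : ℝ)) ≤
        EE p x k (fun s => ((max ((k : ℝ) - s) 0) ^ 2 - 2 * hh k p x * max ((k : ℝ) - s) 0) +
        hh k p x ^ 2 * (if s < k then 1 else 0)) := by
      refine hmono' _ _ fun s hs => ?_
      rw [zero_mul]
      by_cases h : s < k
      · simp only [if_pos h, mul_one]
        nlinarith [sq_nonneg (max ((k : ℝ) - s) 0 - hh k p x)]
      · simp only [if_neg h, mul_zero]
        have : max ((k : ℝ) - s) 0 = 0 := max_eq_right (by push Not at h; linarith)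
        rw [this]
        norm_num
    rw [hmul, zero_mul, e1] at e2
    have e3 : GP p x k k = hh k p x * PR p x k k := by
      unfold hh
      rw [div_mul_cancel₀ _ hW.ne']
    rw [e3] at e2
    have e4 : VV k p x = (G2 p x k k - hh k p x ^ 2 * PR p x k k) / PR p x k k := by
      unfold VV
      field_simp
    rw [e4]
    refine div_nonneg ?_ hW.le
    linarith
  have hLMB := (hlmb ι p x k l hk hp hm1 hkk).1
  have het : 0 < et k p x := by
    have h1 : 0 < mu p x / l * hh k p x := mul_pos (div_pos hm0 hl0) hh0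
    unfold et
    rw [hLMB] at hLH
    nlinarith
  have hvw : 0 ≤ vw p x := by
    unfold vw
    exact sum_nonneg fun i _ => sum_nonneg fun j _ =>
      mul_nonneg (mul_nonneg (hp.pos i).le (hp.pos j).le) (mul_nonneg (hp.nn i) (sq_nonneg _))
  have hCOV := hcov ι p x k l hk hp hm1 hkk
  have hIDT := hidt ι p x k l hk hp hm1 hkk
  refine ⟨?_, hh0, hhk, hVV, het⟩
  have h1 : 0 ≤ (k : ℝ) * vw p x / l := div_nonneg (mul_nonneg hk0.le hvw) hl0.le
  have h2 : 0 ≤ lam k p x * VV k p x := mul_nonneg hlam.le hVV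
  have h3 : lam k p x * et k p x * hh k p x ≤ lam k p x * et k p x * l := by
    nlinarith
  exact le_of_mul_le_mul_left h3 (mul_pos hlam het)

end Pool.Agent.Q241.EM
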